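import Mathlib

set_option autoImplicit false
open Set Topology

namespace Pool.Agent.Results.MP_50fe75_gt.Comp

section Defs
variable {X : Type} [TopologicalSpace X]

/-- The specialization order. -/
def Sp (x y : X) : Prop := x ∈ closure {y}

def Dir (D : Set X) : Prop := D.Nonempty ∧ ∀ a ∈ D, ∀ b ∈ D, ∃ c ∈ D, Sp a c ∧ Sp b c

def IsSup (D : Set X) (s : X) : Prop := (∀ d ∈ D, Sp d s) ∧ ∀ u, (∀ d ∈ D, Sp d u) → Sp s u

def ScottOpen (U : Set X) : Prop := (∀ a ∈ U, ∀ b, Sp a b → b ∈ U) ∧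
  ∀ D s, Dir D → IsSup D s → s ∈ U → (D ∩ U).Nonempty

def DClosed (A : Set X) : Prop := ∀ D ⊆ A, Dir D → ∀ s, IsSup D s → s ∈ A

def DDense (A : Set X) : Prop := ∀ C, DClosed C → A ⊆ C → C = univ

end Defs

def ScottSpace (X : Type) [TopologicalSpace X] : Prop :=
  T0Space X ∧ (∀ D : Set X, Dir D → ∃ s, IsSup D s) ∧ ∀ U : Set X, IsOpen U ↔ ScottOpen U

def DSpace (X : Type) [TopologicalSpace X] : Prop :=
  T0Space X ∧ (∀ D : Set X, Dir D → ∃ s, IsSup D s) ∧ ∀ U : Set X, IsOpen U → ScottOpen U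

theorem scottSpace (P : Type) [PartialOrder P] [TopologicalSpace P] [IsScott P univ]
    (h : ∀ D : Set P, D.Nonempty → DirectedOn (· ≤ ·) D → ∃ s, IsLUB D s) : ScottSpace P := by
  have sp : ∀ a b : P, Sp a b ↔ a ≤ b := fun a b => by rw [Sp, IsScott.closure_singleton]; rfl
  have dir : ∀ D : Set P, Dir D ↔ D.Nonempty ∧ DirectedOn (· ≤ ·) D := fun D => by
    simp only [Dir, sp]; rfl
  have sup : ∀ (D : Set P) s, IsSup D s ↔ IsLUB D s := fun D s => by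
    simp only [IsSup, sp]; rfl
  refine ⟨inferInstance, fun D hD => ?_, fun U => ?_⟩
  · simpa only [sup] using h D ((dir D).1 hD).1 ((dir D).1 hD).2
  · rw [IsScott.isOpen_iff_isUpperSet_and_dirSupInaccOn (D := univ), dirSupInaccOn_univ]
    simp only [ScottOpen, sp, dir, sup]
    exact ⟨fun ⟨h1, h2⟩ => ⟨fun a ha b hb => h1 hb ha, fun D s hD hs hU => h2 hD.1 hD.2 hs hU⟩,
      fun ⟨h1, h2⟩ => ⟨fun a b hb ha => h1 a ha b hb, fun D e1 e2 s hs hU => h2 D s ⟨e1, e2⟩ hs hU⟩⟩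

variable {Y : Type} [TopologicalSpace Y]

def N (y : Y) : Set (Set Y) := {U | IsOpen U ∧ y ∈ U}

theorem N_sub {a b : Y} : N a ⊆ N b ↔ Sp a b := by
  rw [Sp, ← specializes_iff_mem_closure, specializes_iff_forall_open]
  exact ⟨fun h U h1 h2 => (h ⟨h1, h2⟩).2, fun h U hU => ⟨hU.1, h U hU.1 hU.2⟩⟩

theorem N_inj [T0Space Y] {a b : Y} (h : N a = N b) : a = b :=
  (inseparable_iff_mem_closure.2 ⟨N_sub.1 h.le, N_sub.1 h.ge⟩).eq

@[ext] structure Z (C : Set Y) : Type where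
  y : Y
  F : Set (Set Y)
  hy : y ∈ C
  hF : F ⊆ N y

variable {C : Set Y}

instance [T0Space Y] : PartialOrder (Z C) where
  le a b := a.F ⊆ b.F ∧ (a.y = b.y ∨ b.F = N b.y)
  le_refl _ := ⟨subset_rfl, Or.inl rfl⟩
  le_trans a b c h h' := ⟨h.1.trans h'.1, by
    rcases h'.2 with e | e
    · rcases h.2 with f | f
      · exact Or.inl (f.trans e)
      · exact Or.inr (subset_antisymm c.hF (by rw [← e, ← f]; exact h'.1))
    · exact Or.inr e⟩
  le_antisymm a b h h' := by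
    have e := subset_antisymm h.1 h'.1
    refine Z.ext ?_ e
    rcases h.2 with f | f
    · exact f
    · rcases h'.2 with g | g
      · exact g.symm
      · exact N_inj (by rw [← f, ← g, e])

def top (y : Y) (h : y ∈ C) : Z C := ⟨y, N y, h, subset_rfl⟩

theorem lub [T0Space Y] (hY : ScottSpace Y) (hC : DClosed C) (D : Set (Z C)) (hne : D.Nonempty)
    (hD : DirectedOn (· ≤ ·) D) : ∃ s, IsLUB D s ∧ ∀ U ∈ s.F, ∃ d ∈ D, U ∈ d.F := by
  by_cases h : ∀ d ∈ D, ∃ e ∈ D, d ≤ e ∧ e.F = N e.y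
  · let E : Set Y := {y | ∃ e ∈ D, e.y = y ∧ e.F = N e.y}
    have dE : Dir E := by
      obtain ⟨d, hd⟩ := hne
      obtain ⟨e, he, -, h1⟩ := h d hd
      refine ⟨⟨_, e, he, rfl, h1⟩, ?_⟩
      rintro _ ⟨a, ha, rfl, a1⟩ _ ⟨b, hb, rfl, b1⟩
      obtain ⟨c, hc, c1, c2⟩ := hD a ha b hb
      obtain ⟨e, he, e1, e2⟩ := h c hc
      exact ⟨_, ⟨e, he, rfl, e2⟩, N_sub.1 (a1 ▸ e2 ▸ (c1.trans e1).1),
        N_sub.1 (b1 ▸ e2 ▸ (c2.trans e1).1)⟩
    obtain ⟨s, hs⟩ := hY.2.1 E dE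
    have sC : s ∈ C := hC E (by rintro _ ⟨e, -, rfl, -⟩; exact e.hy) dE s hs
    have key : ∀ U ∈ N s, ∃ d ∈ D, U ∈ d.F := fun U hU => by
      obtain ⟨_, ⟨e, he, rfl, e1⟩, h2⟩ := ((hY.2.2 U).1 hU.1).2 E s dE hs hU.2
      exact ⟨e, he, e1 ▸ ⟨hU.1, h2⟩⟩
    refine ⟨top s sC, ⟨fun d hd => ?_, fun u hu => ⟨fun U hU => ?_, ?_⟩⟩, key⟩
    · obtain ⟨e, he, e1, e2⟩ := h d hd
      exact ⟨e1.1.trans (e2 ▸ N_sub.2 (hs.1 _ ⟨e, he, rfl, e2⟩)), Or.inr rfl⟩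
    · obtain ⟨d, hd, h'⟩ := key U hU
      exact (hu hd).1 h'
    · obtain ⟨_, e, he, -, e1⟩ := dE.1
      refine Or.inr ((hu he).2.elim (fun g => subset_antisymm u.hF ?_) id)
      rw [← g, ← e1]
      exact (hu he).1
  · push Not at h
    obtain ⟨d0, h0, h⟩ := h
    have e : ∀ d ∈ D, d.y = d0.y := fun d hd => by
      obtain ⟨c, hc, c1, c2⟩ := hD d hd d0 h0
      exact (c1.2.resolve_right (h c hc c2)).trans (c2.2.resolve_right (h c hc c2)).symm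
    exact ⟨⟨d0.y, {U | ∃ d ∈ D, U ∈ d.F}, d0.hy, fun U ⟨d, hd, h⟩ => e d hd ▸ d.hF h⟩,
      ⟨fun d hd => ⟨fun U hU => ⟨d, hd, hU⟩, Or.inl (e d hd)⟩,
        fun u hu => ⟨fun U ⟨d, hd, h⟩ => (hu hd).1 h, (hu h0).2⟩⟩, fun U h => h⟩

instance [T0Space Y] : TopologicalSpace (Z C) := scott (Z C) univ
instance [T0Space Y] : IsScott (Z C) univ := ⟨rfl⟩

theorem hat_open [T0Space Y] (hY : ScottSpace Y) (hC : DClosed C) (U : Set Y) :
    IsOpen {z : Z C | U ∈ z.F} := by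
  rw [IsScott.isOpen_iff_isUpperSet_and_dirSupInaccOn (D := univ), dirSupInaccOn_univ]
  refine ⟨fun a b h ha => h.1 ha, fun D h1 h2 s hs hU => ?_⟩
  obtain ⟨s', e1, e2⟩ := lub hY hC D h1 h2
  exact e2 U (hs.unique e1 ▸ hU)

theorem top_nhds [T0Space Y] {W : Set (Z C)} (hW : IsOpen W) {y : Y} {h : y ∈ C}
    (hy : top y h ∈ W) : ∃ U, IsOpen U ∧ y ∈ U ∧ ∀ x ∈ U, ∀ hx, top x hx ∈ W := by
  rw [IsScott.isOpen_iff_isUpperSet_and_dirSupInaccOn (D := univ), dirSupInaccOn_univ] at hW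
  have h2 := hW.2
  obtain ⟨z, ⟨z1, z2⟩, z3⟩ := h2 (d := {z : Z C | z.y = y ∧ z.F.Finite})
    ⟨⟨y, ∅, h, empty_subset _⟩, rfl, finite_empty⟩
    (fun a ha b hb => ⟨⟨y, a.F ∪ b.F, h, union_subset (ha.1 ▸ a.hF) (hb.1 ▸ b.hF)⟩,
      ⟨rfl, ha.2.union hb.2⟩, ⟨subset_union_left, Or.inl ha.1⟩, ⟨subset_union_right, Or.inl hb.1⟩⟩)
    (a := top y h) ⟨fun a ha => ⟨ha.1 ▸ a.hF, Or.inr rfl⟩, fun u hu =>
      ⟨fun U hU => (hu (show (⟨y, {U}, h, singleton_subset_iff.2 hU⟩ : Z C) ∈ _ from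
        ⟨rfl, finite_singleton U⟩)).1 rfl,
      (hu (show (⟨y, ∅, h, empty_subset _⟩ : Z C) ∈ _ from ⟨rfl, finite_empty⟩)).2⟩⟩ hy
  exact ⟨⋂₀ z.F, z2.isOpen_sInter fun U hU => (z.hF hU).1, fun U hU => z1 ▸ (z.hF hU).2,
    fun x hx h' => hW.1 (show z ≤ top x h' from
      ⟨fun U hU => ⟨(z.hF hU).1, hx U hU⟩, Or.inr rfl⟩) z3⟩

/-- Every Scott completion of a `T0` space is a D-completion. -/
theorem result (X Y : Type) [TopologicalSpace X] [T0Space X] [TopologicalSpace Y] (i : X → Y)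
    (hY : ScottSpace Y) (hi : Continuous i)
    (h : ∀ (Z : Type) [TopologicalSpace Z], ScottSpace Z → ∀ g : X → Z, Continuous g →
      ∃! g' : Y → Z, Continuous g' ∧ g = g' ∘ i) :
    DSpace Y ∧ IsEmbedding i ∧ DDense (range i) := by
  have _ := hY.1
  have sP : ScottSpace Prop := scottSpace Prop fun D _ _ => ⟨_, isLUB_sSup D⟩
  have inj : ∀ U V : Set Y, IsOpen U → IsOpen V → i ⁻¹' U = i ⁻¹' V → U = V := fun U V hU hV e =>
    (h Prop sP (fun x => i x ∈ U) ((isOpen_iff_continuous_mem.1 hU).comp hi)).unique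
      (y₁ := fun y => y ∈ U) (y₂ := fun y => y ∈ V) ⟨isOpen_iff_continuous_mem.1 hU, rfl⟩
      ⟨isOpen_iff_continuous_mem.1 hV, e⟩
  have ind : IsInducing i := by
    refine ⟨le_antisymm hi.le_induced fun U hU => ?_⟩
    obtain ⟨g, ⟨g1, g2⟩, -⟩ := h Prop sP (fun x => x ∈ U) (isOpen_iff_continuous_mem.1 hU)
    exact ⟨{y | g y}, isOpen_iff_continuous_mem.2 g1, g2.symm⟩
  refine ⟨⟨hY.1, hY.2.1, fun U => (hY.2.2 U).1⟩, ind.isEmbedding, fun C hC hs => ?_⟩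
  obtain ⟨g, ⟨g1, g2⟩, -⟩ := h (Z C) (scottSpace _ fun D h1 h2 => (lub hY hC D h1 h2).imp fun _ h => h.1)
    (fun x => top (i x) (hs ⟨x, rfl⟩)) (continuous_def.2 fun W hW => isOpen_iff_forall_mem_open.2
      fun x hx => by
        obtain ⟨U, h1, h2, h3⟩ := top_nhds hW hx
        exact ⟨i ⁻¹' U, fun x hx => h3 _ hx _, h1.preimage hi, h2⟩)
  have g3 : ∀ x, g (i x) = top (i x) (hs ⟨x, rfl⟩) := fun x => (congrFun g2 x).symm
  refine eq_univ_of_forall fun p => ?_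
  have e1 : (g p).F = N p := by
    have : ∀ U, IsOpen U → (U ∈ (g p).F ↔ p ∈ U) := fun U hU =>
      Set.ext_iff.1 (inj _ _ ((hat_open hY hC U).preimage g1) hU (Set.ext fun x => by
        show U ∈ (g (i x)).F ↔ i x ∈ U
        rw [g3]
        exact and_iff_right hU)) p
    exact Set.ext fun U => ⟨fun hU => ⟨((g p).hF hU).1, (this U ((g p).hF hU).1).1 hU⟩,
      fun hU => (this U hU.1).2 hU.2⟩
  obtain ⟨x, hx⟩ : ∃ x, Sp (i x) p := by
    by_contra hc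
    push Not at hc
    have := inj (closure {p})ᶜ univ isClosed_closure.isOpen_compl isOpen_univ
      (eq_univ_of_forall hc)
    exact (this ▸ mem_univ p : p ∈ (closure {p})ᶜ) (subset_closure rfl)
  have e2 : g (i x) ≤ g p := by
    have := image_closure_subset_closure_image g1 ⟨i x, hx, rfl⟩
    rwa [image_singleton, IsScott.closure_singleton] at this
  rw [g3] at e2
  have e3 : (g p).F = N (g p).y :=
    e2.2.elim (fun e => subset_antisymm (g p).hF (by rw [← e]; exact e2.1)) id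
  rw [N_inj (e1.symm.trans e3)]
  exact (g p).hy

end Pool.Agent.Results.MP_50fe75_gt.Comp
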